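import Pool.Agent.Y354.DC3.Stm3

/-!
Project DC4: symmetrisation for triangles; the squares of the degrees
(adapted from `Pool/Agent/Y93/DC3/T2.lean`).
-/

set_option autoImplicit false

open Finset
open scoped Classical

namespace Pool.Agent.Y876.DC4

open Pool.Agent.Y354.DC3

theorem rot3 {V : Type} [Fintype V] (f : V → V → V → ℝ) :
    ∑ w, ∑ v, ∑ u, f w v u = ∑ w, ∑ v, ∑ u, f v u w := by
  have h1 : ∑ w, ∑ v, ∑ u, f v u w = ∑ v, ∑ w, ∑ u, f v u w := Finset.sum_comm
  rw [h1]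
  refine Finset.sum_congr rfl fun v _ => ?_
  exact Finset.sum_comm

section

variable {V : Type} {N : V → V → V → Prop} {k : ℕ} {y : Fin k → V}

/-- indicator of the triangles -/
noncomputable def g (N : V → V → V → Prop) {k : ℕ} (y : Fin k → V) (w v u : V) : ℝ :=
  I (Al N y w ∧ Al N y v ∧ Al N y u ∧ Ad N y w v ∧ Ad N y w u ∧ Ad N y v u)

/-- one term of the right side -/
noncomputable def h (N : V → V → V → Prop) {k : ℕ} (y : Fin k → V) (w v u : V) : ℝ :=
  I (Al N y w) * (tw2 N y w v u : ℝ)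

theorem I_nonneg (p : Prop) : 0 ≤ I p := by
  unfold I
  split_ifs
  · exact zero_le_one
  · exact le_rfl

theorem h_nonneg (w v u : V) : 0 ≤ h N y w v u :=
  mul_nonneg (I_nonneg _) (Nat.cast_nonneg _)

theorem ad_symm (hN : Sy N) (v u : V) : Ad N y v u ↔ Ad N y u v := by
  constructor
  · rintro ⟨l, hl⟩
    exact ⟨l, hN.1 _ _ _ hl⟩
  · rintro ⟨l, hl⟩
    exact ⟨l, hN.1 _ _ _ hl⟩

theorem bad_excl (hN : Sy N) (w v u : V) (h1 : Bad N y w v u) (h2 : Bad N y v u w) : False := by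
  obtain ⟨-, l, j, hlj, a1, a2, a3⟩ := h1
  obtain ⟨-, l', j', hlj', b1, b2, b3⟩ := h2
  have e1 : l = j' := (b2 l).1 ((a1 l).2 rfl)
  have e2 : j = j' := (b3 j).1 (hN.1 _ _ _ ((a2 j).2 rfl))
  exact hlj (e1.trans e2.symm)

theorem g_rot (hN : Sy N) (w v u : V) : g N y v u w = g N y w v u := by
  unfold g
  congr 1
  rw [ad_symm hN v w, ad_symm hN u w]
  apply propext
  tauto

theorem h_tri {w v u : V} (hw : Al N y w ∧ Al N y v ∧ Al N y u ∧ Ad N y w v ∧ Ad N y w u ∧
    Ad N y v u) :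
    h N y w v u = if Bad N y w v u then 1 else 2 := by
  obtain ⟨a1, a2, a3, p, r, q⟩ := hw
  unfold h tw2 I
  rw [if_pos a1, if_pos ⟨a2, a3, q, p, r⟩, one_mul]
  split_ifs <;> norm_num

theorem pw (hN : Sy N) (w v u : V) :
    5 / 3 * (g N y w v u + g N y v u w + g N y u w v) ≤
      h N y w v u + h N y v u w + h N y u w v := by
  have n1 := h_nonneg (N := N) (y := y) w v u
  have n2 := h_nonneg (N := N) (y := y) v u w
  have n3 := h_nonneg (N := N) (y := y) u w v
  have r1 := g_rot (y := y) hN w v u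
  have r2 := g_rot (y := y) hN v u w
  rw [r2, r1]
  by_cases c : Al N y w ∧ Al N y v ∧ Al N y u ∧ Ad N y w v ∧ Ad N y w u ∧ Ad N y v u
  · have g1 : g N y w v u = 1 := if_pos c
    have c2 : Al N y v ∧ Al N y u ∧ Al N y w ∧ Ad N y v u ∧ Ad N y v w ∧ Ad N y u w := by
      obtain ⟨a1, a2, a3, p, r, q⟩ := c
      exact ⟨a2, a3, a1, q, (ad_symm hN w v).1 p, (ad_symm hN w u).1 r⟩
    have c3 : Al N y u ∧ Al N y w ∧ Al N y v ∧ Ad N y u w ∧ Ad N y u v ∧ Ad N y w v := by
      obtain ⟨a1, a2, a3, p, r, q⟩ := c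
      exact ⟨a3, a1, a2, (ad_symm hN w u).1 r, (ad_symm hN v u).1 q, p⟩
    rw [g1, h_tri c, h_tri c2, h_tri c3]
    by_cases b1 : Bad N y w v u
    · have b2 : ¬ Bad N y v u w := fun b => bad_excl hN _ _ _ b1 b
      have b3 : ¬ Bad N y u w v := fun b => bad_excl hN _ _ _ b b1
      rw [if_pos b1, if_neg b2, if_neg b3]
      norm_num
    · rw [if_neg b1]
      by_cases b2 : Bad N y v u w
      · have b3 : ¬ Bad N y u w v := fun b => bad_excl hN _ _ _ b2 b
        rw [if_pos b2, if_neg b3]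
        norm_num
      · rw [if_neg b2]
        split_ifs <;> norm_num
  · have g1 : g N y w v u = 0 := if_neg c
    rw [g1]
    linarith

end

/-- symmetrisation for triangles -/
theorem s_t2b : S_T2b := by
  intro V _ μ N hN hμ k y
  have e1 : 5 / 3 * ∑ w, ∑ v, ∑ u, μ w * μ v * μ u *
      I (Al N y w ∧ Al N y v ∧ Al N y u ∧ Ad N y w v ∧ Ad N y w u ∧ Ad N y v u) =
      ∑ w, ∑ v, ∑ u, 5 / 3 * (μ w * μ v * μ u * g N y w v u) := by
    rw [Finset.mul_sum]
    refine Finset.sum_congr rfl fun w _ => ?_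
    rw [Finset.mul_sum]
    refine Finset.sum_congr rfl fun v _ => ?_
    rw [Finset.mul_sum]
    rfl
  have e2 : ∑ w, μ w * I (Al N y w) * ∑ v, ∑ u, μ v * μ u * (tw2 N y w v u : ℝ) =
      ∑ w, ∑ v, ∑ u, μ w * μ v * μ u * h N y w v u := by
    refine Finset.sum_congr rfl fun w _ => ?_
    rw [Finset.mul_sum]
    refine Finset.sum_congr rfl fun v _ => ?_
    rw [Finset.mul_sum]
    refine Finset.sum_congr rfl fun u _ => ?_
    unfold h
    ring
  rw [e1, e2]
  have r1 := rot3 (fun w v u => 5 / 3 * (μ w * μ v * μ u * g N y w v u))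
  have r2 := rot3 (fun w v u => 5 / 3 * (μ v * μ u * μ w * g N y v u w))
  have q1 := rot3 (fun w v u => μ w * μ v * μ u * h N y w v u)
  have q2 := rot3 (fun w v u => μ v * μ u * μ w * h N y v u w)
  have main : ∑ w, ∑ v, ∑ u, (5 / 3 * (μ w * μ v * μ u * g N y w v u) +
      5 / 3 * (μ v * μ u * μ w * g N y v u w) + 5 / 3 * (μ u * μ w * μ v * g N y u w v)) ≤
      ∑ w, ∑ v, ∑ u, (μ w * μ v * μ u * h N y w v u + μ v * μ u * μ w * h N y v u w +
        μ u * μ w * μ v * h N y u w v) := by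
    refine Finset.sum_le_sum fun w _ => Finset.sum_le_sum fun v _ => Finset.sum_le_sum fun u _ => ?_
    have hp := mul_le_mul_of_nonneg_left (pw (y := y) hN w v u)
      (mul_nonneg (mul_nonneg (hμ w) (hμ v)) (hμ u))
    calc _ = μ w * μ v * μ u * (5 / 3 * (g N y w v u + g N y v u w + g N y u w v)) := by ring
      _ ≤ μ w * μ v * μ u * (h N y w v u + h N y v u w + h N y u w v) := hp
      _ = _ := by ring
  simp only [Finset.sum_add_distrib] at main
  linarith

/-- the squares of the degrees count triangles and induced paths -/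
theorem s_dt : S_DT := by
  intro V _ μ N k
  unfold D TR HC E
  rw [← Finset.sum_add_distrib]
  refine Finset.sum_congr rfl fun y _ => ?_
  rw [← mul_add]
  congr 1
  rw [← Finset.sum_add_distrib]
  refine Finset.sum_congr rfl fun w _ => ?_
  rw [sq, Finset.sum_mul_sum, Finset.mul_sum, ← Finset.sum_add_distrib]
  refine Finset.sum_congr rfl fun v _ => ?_
  rw [Finset.mul_sum, ← Finset.sum_add_distrib]
  refine Finset.sum_congr rfl fun u _ => ?_
  have key : I (Al N y w) * (I (Al N y v ∧ Ad N y w v) * I (Al N y u ∧ Ad N y w u)) =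
      I (Al N y w ∧ Al N y v ∧ Al N y u ∧ Ad N y w v ∧ Ad N y w u ∧ Ad N y v u) +
      I (Al N y w ∧ Al N y v ∧ Al N y u ∧ Ad N y w v ∧ Ad N y w u ∧ ¬ Ad N y v u) := by
    unfold I
    by_cases a1 : Al N y w <;> by_cases a2 : Al N y v <;> by_cases a3 : Al N y u <;>
      by_cases p : Ad N y w v <;> by_cases r : Ad N y w u <;> by_cases q : Ad N y v u <;>
      simp [a1, a2, a3, p, r, q]
  calc _ = μ w * μ v * μ u *
        (I (Al N y w) * (I (Al N y v ∧ Ad N y w v) * I (Al N y u ∧ Ad N y w u))) := by ring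
    _ = _ := by rw [key]; ring

end Pool.Agent.Y876.DC4
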